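import Mathlib
import Pool.Agent.H56.KPM.Thm
import Pool.Agent.H94.GP.SForm

/-!
# The Kakeya problem for families of tubes with few directions in every ball
-/

set_option autoImplicit false

open MeasureTheory ENNReal
open scoped RealInnerProductSpace

namespace Pool.GP.CandB2

/-- The tube of length `1`, radius `δ`, centre `c` and axis direction `e` in the Euclidean space of
dimension `n = d + 1`. -/
def tube {d : ℕ} (δ : ℝ) (c e : EuclideanSpace ℝ (Fin (d + 1))) :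
    Set (EuclideanSpace ℝ (Fin (d + 1))) :=
  {x | |⟪x - c, e⟫| ≤ 1 / 2 ∧ ‖(x - c) - ⟪x - c, e⟫ • e‖ ≤ δ}

/-- The number of tubes which contain the point `x`. -/
noncomputable def mult {d N : ℕ} (δ : ℝ) (c e : Fin N → EuclideanSpace ℝ (Fin (d + 1)))
    (x : EuclideanSpace ℝ (Fin (d + 1))) : ℝ :=
  ∑ i, (tube δ (c i) (e i)).indicator (fun _ => (1 : ℝ)) x

/-- The directions are unit vectors and `δ`-separated. -/
def Dirs {d N : ℕ} (δ : ℝ) (e : Fin N → EuclideanSpace ℝ (Fin (d + 1))) : Prop :=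
  (∀ i, ‖e i‖ = 1) ∧ ∀ i j, i ≠ j → δ ≤ ‖e i - e j‖

/-- At most `M (r / δ) ^ 3` directions of the family are at distance at most `r` from one of them,
for all `r ≥ δ`. -/
def Spread {d N : ℕ} (δ M : ℝ) (e : Fin N → EuclideanSpace ℝ (Fin (d + 1))) : Prop :=
  ∀ i, ∀ r : ℝ, δ ≤ r → (({j | ‖e j - e i‖ ≤ r} : Set (Fin N)).ncard : ℝ) ≤ M * (r / δ) ^ 3

/-- Off a part `N ^ (-θ)` of the mass at most `C N ^ s` tubes meet at a point, and the inequality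
of Q1 holds for all real `q ≥ q₀`. -/
def Off {d N : ℕ} (θ s q₀ C δ : ℝ) (c e : Fin N → EuclideanSpace ℝ (Fin (d + 1))) : Prop :=
  ∃ G : Set (EuclideanSpace ℝ (Fin (d + 1))), MeasurableSet G ∧
    ∑ i, volume (tube δ (c i) (e i) \ G) ≤
      ENNReal.ofReal ((N : ℝ) ^ (-θ)) * ∑ i, volume (tube δ (c i) (e i)) ∧
    (∀ x ∈ G, mult δ c e x ≤ C * (N : ℝ) ^ s) ∧
    ∀ q : ℝ, q₀ ≤ q → eLpNorm (G.indicator (mult δ c e)) (ENNReal.ofReal q) volume ≤
      ENNReal.ofReal (C * (δ ^ ((d : ℝ) / q) * (N : ℝ) ^ (1 - 1 / (q * d))))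

/-- A measurable set which contains at least the part `lam` of each tube has volume at least
`C⁻¹ lam ^ P N ^ s δ ^ d`. -/
def Dense {d N : ℕ} (P s C δ : ℝ) (c e : Fin N → EuclideanSpace ℝ (Fin (d + 1))) : Prop :=
  ∀ lam : ℝ, 0 < lam → lam ≤ 1 → ∀ X : Set (EuclideanSpace ℝ (Fin (d + 1))), MeasurableSet X →
    (∀ i, ENNReal.ofReal lam * volume (tube δ (c i) (e i)) ≤
      volume (X ∩ tube δ (c i) (e i))) →
    ENNReal.ofReal (C⁻¹ * lam ^ P * ((N : ℝ) ^ s * δ ^ d)) ≤ volume X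

/-- `K` contains a unit segment in the direction `e`. -/
def HasSegment {d : ℕ} (K : Set (EuclideanSpace ℝ (Fin (d + 1))))
    (e : EuclideanSpace ℝ (Fin (d + 1))) : Prop :=
  ∃ x : EuclideanSpace ℝ (Fin (d + 1)), ∀ t : ℝ, 0 ≤ t → t ≤ 1 → x + t • e ∈ K

theorem result (d : ℕ) (hd : 3 ≤ d) :
    (∀ A σ ε q₀ : ℝ, 0 ≤ σ → σ ≤ 1 - 3 / (d : ℝ) → 0 < ε → ε < 1 - σ →
      1 + 1 / ((d : ℝ) * (1 - σ)) < q₀ →
      ∃ θ P C : ℝ, 0 < θ ∧ 0 ≤ P ∧ 0 < C ∧ ∀ δ : ℝ, 0 < δ → δ < 1 →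
        ∀ (N : ℕ) (c e : Fin N → EuclideanSpace ℝ (Fin (d + 1))), Dirs δ e →
        (σ = 1 - 3 / (d : ℝ) ∨ Spread δ (A * (N : ℝ) ^ σ) e) →
        Off θ (σ + ε) q₀ C δ c e ∧
        ENNReal.ofReal (C⁻¹ * ((N : ℝ) ^ (1 - σ - ε) * δ ^ d)) ≤
          volume (⋃ i, tube δ (c i) (e i)) ∧
        Dense P (1 - σ - ε) C δ c e) ∧
    (∀ Ω K : Set (EuclideanSpace ℝ (Fin (d + 1))), Ω.Nonempty →
      (∀ e ∈ Ω, ‖e‖ = 1 ∧ HasSegment K e) → min (dimH Ω) 3 + 1 ≤ dimH K) ∧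
    (∀ K : Set (EuclideanSpace ℝ (Fin (d + 1))), (∀ e, ‖e‖ = 1 → HasSegment K e) →
      4 ≤ dimH K ∧ (d = 3 → dimH K = 4)) := by
  have hKP : Pool.KA.KP 3 := Pool.PB.kp3_thm
  have hd0 : 0 < d := by omega
  have hdens : Pool.GP.DensM d 3 := Pool.GP.densM_of_KP hd0 hKP
  refine ⟨?_, ?_, ?_⟩
  · intro A σ ε q₀ hσ hσ1 hε hε1 hq₀
    obtain ⟨θ, P, C, hθ, hP, hC, h⟩ := Pool.GP.tubesS (k := 3) (by omega) (by norm_num) hd hdens A
      hε hσ (by exact_mod_cast hσ1) hε1 hq₀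
    refine ⟨θ, P, C, hθ, hP, hC, ?_⟩
    intro δ hδ hδ1 N c e hdir hM
    refine h δ hδ hδ1 N c e hdir.1 hdir.2 ?_
    rcases hM with hM | hM
    · left
      exact_mod_cast hM
    · right
      intro i _ r hr
      refine le_trans (le_of_eq ?_) (hM i r hr)
      congr 2
      ext j
      simp
  · intro Ω K hne hK
    have h1 := Pool.GP.le_dimH_of_densM hdens Ω (fun e he => (hK e he).1) hne K
      (fun e he => (hK e he).2)
    exact_mod_cast h1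
  · intro K hK
    have h1 : 4 ≤ dimH K := by
      have h2 := Pool.Agent.H55.HDim.le_dimH_of_dens (d := d) (b := ((3 : ℕ) : ℝ) / d)
        (by positivity) (Pool.GP.dens_of_densM hd0 hd (by norm_num) hdens) K hK
      refine le_trans (le_of_eq ?_) h2
      have hd' : (0 : ℝ) < d := by exact_mod_cast hd0
      rw [div_mul_cancel₀ _ hd'.ne']
      norm_num
    refine ⟨h1, fun hd3 => le_antisymm ?_ h1⟩
    subst hd3
    have h1 : dimH K ≤ dimH (Set.univ : Set (EuclideanSpace ℝ (Fin (3 + 1)))) :=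
      dimH_mono (Set.subset_univ K)
    rw [Real.dimH_univ_eq_finrank, finrank_euclideanSpace_fin] at h1
    exact_mod_cast h1

end Pool.GP.CandB2
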